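import Pool.Agent.W292.NR.Stm
set_option autoImplicit false

/-!
Project NR, part REG: the choice of the chains.
-/

namespace Pool.Agent.W542.NR

open Finset
open Pool.Agent.W292.NR

/-- regions are chosen by induction on the number of clusters -/
theorem regions (k B : ℕ) (hB : 1 ≤ B) (X : Set ℕ) (hX : ∀ x ∈ X, x < k) :
    ∀ (c w : ℕ) (T : Finset ℕ), 1 ≤ w → T.card ≤ c → (5 * B) ^ c * w ≤ k →
      (∀ a ∈ T, a < k) → (∀ x ∈ X, ∃ a ∈ T, a ≤ x ∧ x < a + w) →
      ∃ (W : ℕ) (T : Finset ℕ) (s : ℕ → ℕ) (o : ℕ → Bool), 1 ≤ W ∧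
        (∀ a ∈ T, s a + (2 * W - 1) * B ≤ k) ∧
        (∀ a ∈ T, ∀ b ∈ T, a < b → s a + (2 * W - 1) * B ≤ s b) ∧
        ∀ x ∈ X, ∃ a ∈ T, s a ≤ x ∧ x < s a + (2 * W - 1) * B ∧
          (o a = false → x < s a + W) ∧ (o a = true → s a + (2 * W - 1) * B ≤ x + W) := by
  intro c
  induction c with
  | zero =>
    intro w T hw hT hk hTk hcov
    have hT0 : T = ∅ := by
      apply Finset.card_eq_zero.mp
      omega
    refine ⟨1, ∅, fun _ => 0, fun _ => false, le_refl 1, by simp, by simp, ?_⟩
    intro x hx
    obtain ⟨a, ha, _⟩ := hcov x hx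
    rw [hT0] at ha
    simp at ha
  | succ c ih =>
    intro w T hw hT hk hTk hcov
    by_cases hclose : ∃ a ∈ T, ∃ b ∈ T, a < b ∧ b < a + 2 * ((2 * w - 1) * B)
    · obtain ⟨a, ha, b, hb, hab, hba⟩ := hclose
      have hwB : w ≤ B * w := by nlinarith
      have hL : 2 * ((2 * w - 1) * B) + w ≤ 5 * B * w := by
        obtain ⟨w', rfl⟩ : ∃ w', w = w' + 1 := ⟨w - 1, by omega⟩
        have h1 : 2 * (w' + 1) - 1 = 2 * w' + 1 := by omega
        rw [h1]
        nlinarith
      refine ih (5 * B * w) (T.erase b) ?_ ?_ ?_ ?_ ?_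
      · nlinarith
      · rw [Finset.card_erase_of_mem hb]
        omega
      · calc (5 * B) ^ c * (5 * B * w) = (5 * B) ^ (c + 1) * w := by ring
          _ ≤ k := hk
      · intro d hd
        exact hTk d (Finset.mem_of_mem_erase hd)
      · intro x hx
        obtain ⟨d, hd, hdx, hxd⟩ := hcov x hx
        by_cases hdb : d = b
        · refine ⟨a, Finset.mem_erase.mpr ⟨by omega, ha⟩, by omega, ?_⟩
          subst hdb
          omega
        · refine ⟨d, Finset.mem_erase.mpr ⟨hdb, hd⟩, hdx, ?_⟩
          have : w ≤ 5 * B * w := by nlinarith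
          omega
    · push Not at hclose
      set L := (2 * w - 1) * B with hLdef
      have hLw : w ≤ L := by
        rw [hLdef]
        obtain ⟨w', rfl⟩ : ∃ w', w = w' + 1 := ⟨w - 1, by omega⟩
        have h1 : 2 * (w' + 1) - 1 = 2 * w' + 1 := by omega
        rw [h1]
        nlinarith
      have hLk : 2 * L ≤ k := by
        have h2 : 2 * L + w ≤ 5 * B * w := by
          rw [hLdef]
          have hwB : w ≤ B * w := by nlinarith
          obtain ⟨w', rfl⟩ : ∃ w', w = w' + 1 := ⟨w - 1, by omega⟩
          have h1 : 2 * (w' + 1) - 1 = 2 * w' + 1 := by omega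
          rw [h1]
          nlinarith
        have h3 : 5 * B * w ≤ (5 * B) ^ (c + 1) * w := by
          apply Nat.mul_le_mul_right
          calc 5 * B = (5 * B) ^ 1 := (pow_one _).symm
            _ ≤ (5 * B) ^ (c + 1) := Nat.pow_le_pow_right (by omega) (by omega)
        omega
      refine ⟨w, T, fun a => if a + L ≤ k then a else min (a + w) k - L,
        fun a => if a + L ≤ k then false else true, hw, ?_, ?_, ?_⟩
      · intro a ha
        have hak := hTk a ha
        show (if a + L ≤ k then a else min (a + w) k - L) + L ≤ k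
        split_ifs with h
        · exact h
        · have : L ≤ min (a + w) k := by
            rw [le_min_iff]
            omega
          have : min (a + w) k ≤ k := min_le_right _ _
          omega
      · intro a ha b hb hab
        have hak := hTk a ha
        have hbk := hTk b hb
        have hcl := hclose a ha b hb hab
        show (if a + L ≤ k then a else min (a + w) k - L) + L ≤
          (if b + L ≤ k then b else min (b + w) k - L)
        have ha' : a + L ≤ k := by omega
        rw [if_pos ha']
        split_ifs with h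
        · omega
        · have : a + 2 * L ≤ min (b + w) k := by
            rw [le_min_iff]
            omega
          omega
      · intro x hx
        have hxk := hX x hx
        obtain ⟨a, ha, hax, hxa⟩ := hcov x hx
        have hak := hTk a ha
        refine ⟨a, ha, ?_⟩
        show (if a + L ≤ k then a else min (a + w) k - L) ≤ x ∧
          x < (if a + L ≤ k then a else min (a + w) k - L) + L ∧
          ((if a + L ≤ k then false else true) = false →
            x < (if a + L ≤ k then a else min (a + w) k - L) + w) ∧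
          ((if a + L ≤ k then false else true) = true →
            (if a + L ≤ k then a else min (a + w) k - L) + L ≤ x + w)
        split_ifs with h
        · refine ⟨hax, by omega, fun _ => hxa, fun h' => by simp at h'⟩
        · have h1 : L ≤ min (a + w) k := by
            rw [le_min_iff]
            omega
          have h2 : min (a + w) k ≤ x + w := by
            have := min_le_left (a + w) k
            omega
          have h3 : x < min (a + w) k := by
            rw [lt_min_iff]
            exact ⟨hxa, hxk⟩
          refine ⟨by omega, by omega, fun h' => by simp at h', fun _ => by omega⟩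

theorem reg : S_REG := by
  intro m B hm hB p hp
  classical
  set k := (5 * B) ^ m with hk
  obtain ⟨W, T, s, o, hW, htop, hdis, hcov⟩ := regions k B hB (Set.range p)
    (by rintro x ⟨q, rfl⟩; exact hp q) m 1 (Finset.univ.image p) (le_refl 1)
    (by
      calc (Finset.univ.image p).card ≤ (Finset.univ : Finset (Fin m)).card :=
            Finset.card_image_le
        _ = m := by simp)
    (by rw [mul_one])
    (by
      intro a ha
      obtain ⟨q, _, rfl⟩ := Finset.mem_image.mp ha
      exact hp q)
    (by
      rintro x ⟨q, rfl⟩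
      exact ⟨p q, Finset.mem_image_of_mem p (Finset.mem_univ q), le_refl _, by omega⟩)
  set L := (2 * W - 1) * B with hL
  have huniq : ∀ t : ℕ, ∀ a ∈ T, ∀ b ∈ T, s a ≤ t → t < s a + L → s b ≤ t → t < s b + L →
      a = b := by
    intro t a ha b hb h1 h2 h3 h4
    rcases lt_trichotomy a b with h | h | h
    · have := hdis a ha b hb h
      omega
    · exact h
    · have := hdis b hb a ha h
      omega
  let E : ℕ → Prop := fun t => ∃ a, a ∈ T ∧ s a ≤ t ∧ t < s a + L
  let st : ℕ → ℕ := fun t => if h : E t then s h.choose else t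
  let ln : ℕ → ℕ := fun t => if E t then L else 1
  let oo : ℕ → Bool := fun t => if h : E t then o h.choose else false
  have hin : ∀ t a, a ∈ T → s a ≤ t → t < s a + L → st t = s a ∧ ln t = L ∧ oo t = o a := by
    intro t a ha h1 h2
    have hE : E t := ⟨a, ha, h1, h2⟩
    have hch : hE.choose = a :=
      huniq t hE.choose hE.choose_spec.1 a ha hE.choose_spec.2.1 hE.choose_spec.2.2 h1 h2
    refine ⟨?_, ?_, ?_⟩
    · show (if h : E t then s h.choose else t) = s a
      rw [dif_pos hE, hch]
    · show (if E t then L else 1) = L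
      rw [if_pos hE]
    · show (if h : E t then o h.choose else false) = o a
      rw [dif_pos hE, hch]
  have hout : ∀ t, ¬ E t → st t = t ∧ ln t = 1 ∧ oo t = false := by
    intro t hE
    refine ⟨?_, ?_, ?_⟩
    · show (if h : E t then s h.choose else t) = t
      rw [dif_neg hE]
    · show (if E t then L else 1) = 1
      rw [if_neg hE]
    · show (if h : E t then o h.choose else false) = false
      rw [dif_neg hE]
  refine ⟨W, st, ln, oo, hW, ⟨?_, ?_, ?_, ?_⟩, ?_, ?_⟩
  · intro t ht
    by_cases hE : E t
    · obtain ⟨a, ha, h1, h2⟩ := hE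
      rw [(hin t a ha h1 h2).1]
      exact h1
    · rw [(hout t hE).1]
  · intro t ht
    by_cases hE : E t
    · obtain ⟨a, ha, h1, h2⟩ := hE
      rw [(hin t a ha h1 h2).1, (hin t a ha h1 h2).2.1]
      exact h2
    · rw [(hout t hE).1, (hout t hE).2.1]
      omega
  · intro t ht
    by_cases hE : E t
    · obtain ⟨a, ha, h1, h2⟩ := hE
      rw [(hin t a ha h1 h2).1, (hin t a ha h1 h2).2.1]
      exact htop a ha
    · rw [(hout t hE).1, (hout t hE).2.1]
      omega
  · intro t ht u hu1 hu2
    by_cases hE : E t
    · obtain ⟨a, ha, h1, h2⟩ := hE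
      obtain ⟨e1, e2, e3⟩ := hin t a ha h1 h2
      rw [e1] at hu1 hu2 ⊢
      rw [e2] at hu2 ⊢
      obtain ⟨f1, f2, f3⟩ := hin u a ha hu1 hu2
      exact ⟨f1, f2⟩
    · obtain ⟨e1, e2, e3⟩ := hout t hE
      rw [e1] at hu1 hu2
      rw [e2] at hu2
      have : u = t := by omega
      rw [this]
      exact ⟨rfl, rfl⟩
  · intro t ht u hu1 hu2
    by_cases hE : E t
    · obtain ⟨a, ha, h1, h2⟩ := hE
      obtain ⟨e1, e2, e3⟩ := hin t a ha h1 h2
      rw [e1] at hu1 hu2
      rw [e2] at hu2
      obtain ⟨f1, f2, f3⟩ := hin u a ha hu1 hu2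
      rw [f3, e3]
    · obtain ⟨e1, e2, e3⟩ := hout t hE
      rw [e1] at hu1 hu2
      rw [e2] at hu2
      have : u = t := by omega
      rw [this]
  · intro q
    obtain ⟨a, ha, h1, h2, h3, h4⟩ := hcov (p q) ⟨q, rfl⟩
    obtain ⟨e1, e2, e3⟩ := hin (p q) a ha h1 h2
    rw [e1, e2, e3]
    exact ⟨rfl, h3, h4⟩

end Pool.Agent.W542.NR
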